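import Pool.Agent.Helper848.AztecDet

namespace Pool.Agent.D0H25.Aztec

open Polynomial Finset

/-- the coefficient of `X ^ c` in `(1+X)^a (1-X)^b` -/
noncomputable def co (a b c : ℕ) : ℚ := ((1 + X) ^ a * (1 - X) ^ b : ℚ[X]).coeff c

theorem co_rec (a b c : ℕ) : co (a + 2) b (c + 1) = co a (b + 2) (c + 1) + 4 * co a b c := by
  unfold co
  have h : ((1 + X) ^ (a + 2) * (1 - X) ^ b : ℚ[X]) =
      (1 + X) ^ a * (1 - X) ^ (b + 2) + X * (C 4 * ((1 + X) ^ a * (1 - X) ^ b)) := by
    have : (C 4 : ℚ[X]) = 4 := rfl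
    rw [this]; ring
  rw [h, coeff_add, coeff_X_mul, coeff_C_mul]

/-- central binomial coefficients as rational numbers -/
noncomputable def cb (j : ℕ) : ℚ := (Nat.centralBinom j : ℚ)

theorem cb_succ (j : ℕ) : ((j : ℚ) + 1) * cb (j + 1) = 2 * (2 * j + 1) * cb j := by
  unfold cb
  have := Nat.succ_mul_centralBinom_succ j
  exact_mod_cast this

theorem cb_zero : cb 0 = 1 := by simp [cb]

theorem cb_pos (j : ℕ) : 0 < cb j := by
  unfold cb; exact_mod_cast Nat.centralBinom_pos j

theorem cb_succ' (j : ℕ) : cb (j + 1) = 2 * (2 * j + 1) * cb j / ((j : ℚ) + 1) := by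
  rw [eq_div_iff (by positivity), mul_comm, cb_succ]

/-- super Catalan numbers -/
noncomputable def S (j l : ℕ) : ℚ := cb j * cb l / (Nat.choose (j + l) j : ℚ)

theorem choose_pos' (j l : ℕ) : (0 : ℚ) < (Nat.choose (j + l) j : ℚ) := by
  exact_mod_cast Nat.choose_pos (by omega)

theorem choose_succ_left (j l : ℕ) :
    ((j : ℚ) + 1) * (Nat.choose (j + 1 + l) (j + 1) : ℚ) = (j + l + 1) * (Nat.choose (j + l) j : ℚ) := by
  have h := Nat.add_one_mul_choose_eq (j + l) j
  have : (j + l + 1).choose (j + 1) = Nat.choose (j + 1 + l) (j + 1) := by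
    congr 1
    omega
  rw [this] at h
  have h2 : ((j : ℚ) + l + 1) * (Nat.choose (j + l) j : ℚ) =
    (Nat.choose (j + 1 + l) (j + 1) : ℚ) * ((j : ℚ) + 1) := by exact_mod_cast h
  linarith

theorem choose_succ_right (j l : ℕ) :
    ((l : ℚ) + 1) * (Nat.choose (j + (l + 1)) j : ℚ) = (j + l + 1) * (Nat.choose (j + l) j : ℚ) := by
  have h := Nat.add_one_mul_choose_eq (j + l) l
  have e1 : (j + l).choose l = Nat.choose (j + l) j := by
    rw [← Nat.choose_symm_add]
  have e2 : (j + l + 1).choose (l + 1) = Nat.choose (j + (l + 1)) j := by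
    rw [show j + l + 1 = j + (l + 1) from by ring, ← Nat.choose_symm_add]
  rw [e1, e2] at h
  have h2 : ((j : ℚ) + l + 1) * (Nat.choose (j + l) j : ℚ) =
    (Nat.choose (j + (l + 1)) j : ℚ) * ((l : ℚ) + 1) := by exact_mod_cast h
  linarith

theorem S_succ_left (j l : ℕ) : ((j : ℚ) + l + 1) * S (j + 1) l = 2 * (2 * j + 1) * S j l := by
  unfold S
  have h1 := choose_succ_left j l
  have h2 := cb_succ j
  have h3 := choose_pos' j l
  have h4 := choose_pos' (j + 1) l
  have h5 : (0 : ℚ) < (j : ℚ) + 1 := by positivity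
  rw [mul_div_assoc', mul_div_assoc', div_eq_div_iff h4.ne' h3.ne']
  have : ((j : ℚ) + 1) * ((j + l + 1) * (cb (j + 1) * cb l) * (Nat.choose (j + l) j : ℚ)) =
      ((j : ℚ) + 1) * (2 * (2 * j + 1) * (cb j * cb l) * (Nat.choose (j + 1 + l) (j + 1) : ℚ)) := by
    calc ((j : ℚ) + 1) * ((j + l + 1) * (cb (j + 1) * cb l) * (Nat.choose (j + l) j : ℚ))
        = (((j : ℚ) + 1) * cb (j + 1)) * cb l * ((j + l + 1) * (Nat.choose (j + l) j : ℚ)) := by ring
      _ = (2 * (2 * j + 1) * cb j) * cb l *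
          (((j : ℚ) + 1) * (Nat.choose (j + 1 + l) (j + 1) : ℚ)) := by rw [h2, h1]
      _ = _ := by ring
  exact mul_left_cancel₀ h5.ne' this

theorem S_succ_right (j l : ℕ) : ((j : ℚ) + l + 1) * S j (l + 1) = 2 * (2 * l + 1) * S j l := by
  unfold S
  have h1 := choose_succ_right j l
  have h2 := cb_succ l
  have h3 := choose_pos' j l
  have h4 := choose_pos' j (l + 1)
  have h5 : (0 : ℚ) < (l : ℚ) + 1 := by positivity
  rw [mul_div_assoc', mul_div_assoc', div_eq_div_iff h4.ne' h3.ne']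
  have : ((l : ℚ) + 1) * ((j + l + 1) * (cb j * cb (l + 1)) * (Nat.choose (j + l) j : ℚ)) =
      ((l : ℚ) + 1) * (2 * (2 * l + 1) * (cb j * cb l) * (Nat.choose (j + (l + 1)) j : ℚ)) := by
    calc ((l : ℚ) + 1) * ((j + l + 1) * (cb j * cb (l + 1)) * (Nat.choose (j + l) j : ℚ))
        = (((l : ℚ) + 1) * cb (l + 1)) * cb j * ((j + l + 1) * (Nat.choose (j + l) j : ℚ)) := by ring
      _ = (2 * (2 * l + 1) * cb l) * cb j *
          (((l : ℚ) + 1) * (Nat.choose (j + (l + 1)) j : ℚ)) := by rw [h2, h1]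
      _ = _ := by ring
  exact mul_left_cancel₀ h5.ne' this

theorem S_rec (j l : ℕ) : S (j + 1) l = 4 * S j l - S j (l + 1) := by
  have h1 := S_succ_left j l
  have h2 := S_succ_right j l
  have h3 : (0 : ℚ) < (j : ℚ) + l + 1 := by positivity
  have : ((j : ℚ) + l + 1) * S (j + 1) l = ((j : ℚ) + l + 1) * (4 * S j l - S j (l + 1)) := by
    rw [mul_sub, h1, h2]; ring
  exact mul_left_cancel₀ h3.ne' this

theorem coeff_one_sub_pow (n k : ℕ) : ((1 - X) ^ n : ℚ[X]).coeff k = (-1) ^ k * (Nat.choose n k : ℚ) := by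
  have h : ((1 - X) ^ n : ℚ[X]) = ((1 + X) ^ n : ℚ[X]).comp (-X) := by
    rw [pow_comp, add_comp, one_comp, X_comp]; ring
  rw [h, show (-X : ℚ[X]) = C (-1) * X from by simp, comp_C_mul_X_coeff, coeff_one_add_X_pow, mul_comm]

/-- `S 0 l = 1 * cb l` -/
theorem S_zero_left (l : ℕ) : S 0 l = cb l := by
  unfold S
  simp [cb_zero]

/-- central coefficient of `(1+X)^(2j) (1-X)^(2l)` -/
theorem co_even_even (j l : ℕ) : co (2 * j) (2 * l) (j + l) = (-1) ^ l * S j l := by
  induction j generalizing l with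
  | zero =>
    unfold co
    rw [S_zero_left, mul_zero, pow_zero, one_mul, zero_add, coeff_one_sub_pow]
    rfl
  | succ j ih =>
    have h := co_rec (2 * j) (2 * l) (j + l)
    have e1 : co (2 * (j + 1)) (2 * l) (j + 1 + l) = co (2 * j + 2) (2 * l) (j + l + 1) := by
      congr 1; omega
    have e2 : co (2 * j) (2 * l + 2) (j + l + 1) = co (2 * j) (2 * (l + 1)) (j + (l + 1)) := by
      congr 1
    rw [e1, h, e2, ih, ih, S_rec]
    ring

theorem co_even_odd (j l : ℕ) :
    co (2 * j) (2 * l + 1) (j + l + 1) = (-1) ^ (l + 1) * S j (l + 1) / 2 := by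
  induction j generalizing l with
  | zero =>
    unfold co
    rw [S_zero_left, mul_zero, pow_zero, one_mul, zero_add, coeff_one_sub_pow]
    have h1 : (Nat.centralBinom (l + 1) : ℚ) = 2 * (Nat.choose (2 * l + 1) (l + 1) : ℚ) := by
      have h2 : Nat.centralBinom (l + 1) = Nat.choose (2 * l + 2) (l + 1) := rfl
      rw [h2, Nat.choose_succ_succ' (2 * l + 1) l]
      have h3 : Nat.choose (2 * l + 1) l = Nat.choose (2 * l + 1) (l + 1) := by
        rw [← Nat.choose_symm_half]
      rw [h3]; push_cast; ring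
    unfold cb
    rw [h1]; ring
  | succ j ih =>
    have h := co_rec (2 * j) (2 * l + 1) (j + l + 1)
    have e1 : co (2 * (j + 1)) (2 * l + 1) (j + 1 + l + 1) =
        co (2 * j + 2) (2 * l + 1) (j + l + 1 + 1) := by
      congr 1; omega
    have e2 : co (2 * j) (2 * l + 1 + 2) (j + l + 1 + 1) =
        co (2 * j) (2 * (l + 1) + 1) (j + (l + 1) + 1) := by
      congr 1
    rw [e1, h, e2, ih, ih, S_rec]
    ring

theorem co_odd_even (j l : ℕ) :
    co (2 * j + 1) (2 * l) (j + l + 1) = (-1) ^ l * S (j + 1) l / 2 := by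
  induction l generalizing j with
  | zero =>
    unfold co
    rw [mul_zero, pow_zero, mul_one, add_zero, pow_zero, one_mul, coeff_one_add_X_pow]
    have h0 : S (j + 1) 0 = cb (j + 1) := by
      unfold S; simp [cb_zero]
    rw [h0]
    have h1 : (Nat.centralBinom (j + 1) : ℚ) = 2 * (Nat.choose (2 * j + 1) (j + 1) : ℚ) := by
      have h2 : Nat.centralBinom (j + 1) = Nat.choose (2 * j + 2) (j + 1) := rfl
      rw [h2, Nat.choose_succ_succ' (2 * j + 1) j]
      have h3 : Nat.choose (2 * j + 1) j = Nat.choose (2 * j + 1) (j + 1) := by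
        rw [← Nat.choose_symm_half]
      rw [h3]; push_cast; ring
    unfold cb
    rw [h1]; ring
  | succ l ih =>
    have h := co_rec (2 * j + 1) (2 * l) (j + l + 1)
    have e1 : co (2 * j + 1) (2 * (l + 1)) (j + (l + 1) + 1) =
        co (2 * j + 1) (2 * l + 2) (j + l + 1 + 1) := by
      congr 1
    have e2 : co (2 * j + 1 + 2) (2 * l) (j + l + 1 + 1) =
        co (2 * (j + 1) + 1) (2 * l) (j + 1 + l + 1) := by
      congr 1; omega
    have e3 : co (2 * j + 1) (2 * l + 2) (j + l + 1 + 1) =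
        co (2 * j + 1 + 2) (2 * l) (j + l + 1 + 1) - 4 * co (2 * j + 1) (2 * l) (j + l + 1) := by
      rw [h]; ring
    rw [e1, e3, e2, ih, ih, S_rec (j + 1) l]
    ring

theorem co_odd_odd (j l : ℕ) :
    co (2 * j + 1) (2 * l + 1) (j + l + 1) = 0 := by
  induction j generalizing l with
  | zero =>
    unfold co
    rw [mul_zero, zero_add, pow_one, zero_add, add_mul, one_mul, coeff_add, coeff_X_mul,
      coeff_one_sub_pow, coeff_one_sub_pow]
    have h3 : Nat.choose (2 * l + 1) l = Nat.choose (2 * l + 1) (l + 1) := by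
      rw [← Nat.choose_symm_half]
    rw [h3]; ring
  | succ j ih =>
    have h := co_rec (2 * j + 1) (2 * l + 1) (j + l + 1)
    have e1 : co (2 * (j + 1) + 1) (2 * l + 1) (j + 1 + l + 1) =
        co (2 * j + 1 + 2) (2 * l + 1) (j + l + 1 + 1) := by
      congr 1; omega
    have e2 : co (2 * j + 1) (2 * l + 1 + 2) (j + l + 1 + 1) =
        co (2 * j + 1) (2 * (l + 1) + 1) (j + (l + 1) + 1) := by
      congr 1
    rw [e1, h, e2, ih, ih]
    ring

end Pool.Agent.D0H25.Aztec
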