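import Pool.Agent.D0H25.Aztec.Sums

namespace Pool.Agent.D0H25.Aztec

open Polynomial Finset
open Pool.Agent.Helper848.AztecDet (G)

/-- the coefficients for an Aztec diamond of even order -/
noncomputable def ge (N k : ℕ) : ℚ :=
  if k % 2 = 0 then (-1) ^ (N - k / 2) * (Nat.choose N (k / 2) : ℚ) / 4 ^ N else 0

/-- the coefficients for an Aztec diamond of odd order -/
noncomputable def go (N k : ℕ) : ℚ :=
  if k % 2 = 0 then -((-1) ^ (N - k / 2) * (Nat.choose N (k / 2) : ℚ) / (2 * 4 ^ N))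
  else (-1) ^ (N - k / 2) * (Nat.choose N (k / 2) : ℚ) / (2 * 4 ^ N)

theorem ge_spec (N : ℕ) :
    ∑ k ∈ range (2 * N + 1), C (ge N k) * ((1 + X) ^ k * (1 - X) ^ (2 * N - k) : ℚ[X]) = X ^ N := by
  rw [X_pow_expand]
  have h := sum_even_support (2 * N + 1) (fun j => C ((-1) ^ (N - j) * (Nat.choose N j : ℚ) / 4 ^ N) *
      ((1 + X) ^ (2 * j) * (1 - X) ^ (2 * (N - j)) : ℚ[X]))
  rw [show (2 * N + 1 + 1) / 2 = N + 1 from by omega] at h
  rw [← h]
  refine sum_congr rfl fun k hk => ?_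
  rw [mem_range] at hk
  unfold ge
  by_cases h2 : k % 2 = 0
  · rw [if_pos h2, if_pos h2]
    congr 3
    · omega
    · omega
  · rw [if_neg h2, if_neg h2, C_0, zero_mul]

theorem go_spec (N : ℕ) :
    ∑ k ∈ range (2 * N + 1 + 1), C (go N k) * ((1 + X) ^ k * (1 - X) ^ (2 * N + 1 - k) : ℚ[X]) =
      X ^ (N + 1) := by
  have h1 := sum_even_support (2 * N + 2) (fun j =>
      C (-((-1) ^ (N - j) * (Nat.choose N j : ℚ) / (2 * 4 ^ N))) *
      ((1 + X) ^ (2 * j) * (1 - X) ^ (2 * (N - j) + 1) : ℚ[X]))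
  have h2 := sum_odd_support (2 * N + 2) (fun j =>
      C (((-1) ^ (N - j) * (Nat.choose N j : ℚ) / (2 * 4 ^ N))) *
      ((1 + X) ^ (2 * j + 1) * (1 - X) ^ (2 * (N - j)) : ℚ[X]))
  rw [show (2 * N + 2 + 1) / 2 = N + 1 from by omega] at h1
  rw [show (2 * N + 2) / 2 = N + 1 from by omega] at h2
  have h3 : (X ^ (N + 1) : ℚ[X]) = ∑ j ∈ range (N + 1),
      (C (-((-1) ^ (N - j) * (Nat.choose N j : ℚ) / (2 * 4 ^ N))) *
      ((1 + X) ^ (2 * j) * (1 - X) ^ (2 * (N - j) + 1) : ℚ[X]) +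
      C (((-1) ^ (N - j) * (Nat.choose N j : ℚ) / (2 * 4 ^ N))) *
      ((1 + X) ^ (2 * j + 1) * (1 - X) ^ (2 * (N - j)) : ℚ[X])) := by
    rw [pow_succ, X_pow_expand, sum_mul]
    refine sum_congr rfl fun j _ => ?_
    have e : (X : ℚ[X]) = C (1 / 2) * ((1 + X) - (1 - X)) := by
      have : ((1 + X) - (1 - X) : ℚ[X]) = C 2 * X := by
        have : (C 2 : ℚ[X]) = 2 := rfl
        rw [this]; ring
      rw [this, ← mul_assoc, ← C_mul]; norm_num
    have e2 : (C ((-1) ^ (N - j) * (Nat.choose N j : ℚ) / 4 ^ N) *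
      ((1 + X) ^ (2 * j) * (1 - X) ^ (2 * (N - j))) * X : ℚ[X]) =
      (C ((-1) ^ (N - j) * (Nat.choose N j : ℚ) / 4 ^ N) *
      ((1 + X) ^ (2 * j) * (1 - X) ^ (2 * (N - j))) * (C (1 / 2) * ((1 + X) - (1 - X)))) := by
      rw [← e]
    rw [e2]
    have e3 : (C (((-1) ^ (N - j) * (Nat.choose N j : ℚ) / (2 * 4 ^ N))) : ℚ[X]) =
      C ((-1) ^ (N - j) * (Nat.choose N j : ℚ) / 4 ^ N) * C (1 / 2) := by
      rw [← C_mul]; congr 1; field_simp
    rw [C_neg, e3]
    ring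
  rw [h3, sum_add_distrib, ← h1, ← h2, ← sum_add_distrib]
  refine sum_congr rfl fun k hk => ?_
  rw [mem_range] at hk
  unfold go
  by_cases h2 : k % 2 = 0
  · rw [if_pos h2, if_pos h2, if_pos h2, add_zero]
    congr 3
    · omega
    · omega
  · rw [if_neg h2, if_neg h2, if_neg h2, zero_add]
    congr 3
    · omega
    · omega

theorem G_ge (n : ℕ) (γ : ℕ → ℚ) (s0 s c : ℕ) (h : s0 ≤ s) :
    (G n γ s0 s).coeff c = (-1) ^ (s - s0) * ∑ k ∈ range s0,
      γ k * co (k + (s - s0)) (n - 1 - k - (s - s0)) c := by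
  unfold G
  rw [if_neg (by omega)]
  have hC : ∀ m : ℕ, ((-1) ^ m : ℚ[X]) = C ((-1) ^ m) := by intro m; simp
  rw [hC, coeff_C_mul, finsetSum_coeff]
  congr 1
  refine sum_congr rfl fun k _ => ?_
  rw [coeff_C_mul]; rfl

theorem G_lt (n : ℕ) (γ : ℕ → ℚ) (s0 s c : ℕ) (h : s < s0) :
    (G n γ s0 s).coeff c = (-1) ^ (s0 - 1 - s) * ∑ k ∈ Ico s0 (n + 1),
      γ k * co (k + s - s0) (n + s0 - 1 - s - k) c := by
  unfold G
  rw [if_pos h]
  have hC : ∀ m : ℕ, ((-1) ^ m : ℚ[X]) = C ((-1) ^ m) := by intro m; simp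
  rw [hC, coeff_C_mul, finsetSum_coeff]
  congr 1
  refine sum_congr rfl fun k _ => ?_
  rw [coeff_C_mul]; rfl

theorem neg_one_sq_pow (a : ℕ) : ((-1 : ℚ) ^ a) * (-1) ^ a = 1 := by
  rw [← mul_pow]; simp

theorem V_diag (N s : ℕ) (hs : s ≤ 2 * N) :
    (G (2 * N) (ge N) s s).coeff N = R N ((s + 1) / 2) / (2 * 4 ^ N) := by
  rw [G_ge _ _ _ _ _ le_rfl, Nat.sub_self, pow_zero, one_mul]
  have h := sum_even_support s (fun j => cb j * cb (N - j) / (2 * 4 ^ N))
  unfold R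
  rw [sum_div, ← h]
  refine sum_congr rfl fun k hk => ?_
  rw [mem_range] at hk
  unfold ge
  by_cases h2 : k % 2 = 0
  · rw [if_pos h2, if_pos h2]
    obtain ⟨j, rfl⟩ : ∃ j, k = 2 * j := ⟨k / 2, by omega⟩
    obtain ⟨l, rfl⟩ : ∃ l, N = j + l + 1 := ⟨N - j - 1, by omega⟩
    have e := co_even_odd j l
    have e2 := choose_mul_S (N := j + l + 1) (j := j) (by omega)
    rw [show j + l + 1 - j = l + 1 from by omega] at e2
    rw [show 2 * j / 2 = j from by omega, show j + l + 1 - j = l + 1 from by omega, add_zero,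
      show 2 * (j + l + 1) - 1 - 2 * j - 0 = 2 * l + 1 from by omega, e, ← e2]
    have := neg_one_sq_pow (l + 1)
    calc (-1) ^ (l + 1) * (Nat.choose (j + l + 1) j : ℚ) / 4 ^ (j + l + 1) *
          ((-1) ^ (l + 1) * S j (l + 1) / 2) =
        (((-1 : ℚ) ^ (l + 1)) * (-1) ^ (l + 1)) * ((Nat.choose (j + l + 1) j : ℚ) * S j (l + 1)) /
          (2 * 4 ^ (j + l + 1)) := by ring
      _ = _ := by rw [this, one_mul]
  · rw [if_neg h2, if_neg h2, zero_mul]

theorem V_low (N s : ℕ) (hs : s ≤ 2 * N) :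
    (G (2 * N) (ge N) (s + 1) s).coeff N = (4 ^ N - R N ((s + 2) / 2)) / (2 * 4 ^ N) := by
  rw [G_lt _ _ _ _ _ (Nat.lt_succ_self s), show s + 1 - 1 - s = 0 from by omega, pow_zero, one_mul]
  have h := sum_even_support (2 * N + 1) (fun j => cb j * cb (N - j) / (2 * 4 ^ N))
  have h' := sum_even_support (s + 1) (fun j => cb j * cb (N - j) / (2 * 4 ^ N))
  rw [show (2 * N + 1 + 1) / 2 = N + 1 from by omega, ← sum_div, full_sum] at h
  rw [show (s + 1 + 1) / 2 = (s + 2) / 2 from by omega, ← sum_div] at h'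
  have h3 := sum_range_add_sum_Ico (fun k => if k % 2 = 0 then cb (k / 2) * cb (N - k / 2) / (2 * 4 ^ N)
    else 0) (by omega : s + 1 ≤ 2 * N + 1)
  rw [h, h'] at h3
  have h4 : ∑ k ∈ Ico (s + 1) (2 * N + 1), ge N k * co (k + s - (s + 1))
      (2 * N + (s + 1) - 1 - s - k) N = ∑ k ∈ Ico (s + 1) (2 * N + 1),
      (if k % 2 = 0 then cb (k / 2) * cb (N - k / 2) / (2 * 4 ^ N) else 0) := by
    refine sum_congr rfl fun k hk => ?_
    rw [mem_Ico] at hk
    unfold ge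
    by_cases h2 : k % 2 = 0
    · rw [if_pos h2, if_pos h2]
      obtain ⟨i, rfl⟩ : ∃ i, k = 2 * (i + 1) := ⟨k / 2 - 1, by omega⟩
      obtain ⟨l, rfl⟩ : ∃ l, N = i + 1 + l := ⟨N - i - 1, by omega⟩
      have e := co_odd_even i l
      have e2 := choose_mul_S (N := i + 1 + l) (j := i + 1) (by omega)
      rw [show i + 1 + l - (i + 1) = l from by omega] at e2
      rw [show 2 * (i + 1) / 2 = i + 1 from by omega, show i + 1 + l - (i + 1) = l from by omega,
        show 2 * (i + 1) + s - (s + 1) = 2 * i + 1 from by omega,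
        show 2 * (i + 1 + l) + (s + 1) - 1 - s - 2 * (i + 1) = 2 * l from by omega, ← e2]
      rw [show i + 1 + l = i + l + 1 from by omega, e]
      have := neg_one_sq_pow l
      calc (-1) ^ l * (Nat.choose (i + l + 1) (i + 1) : ℚ) / 4 ^ (i + l + 1) *
            ((-1) ^ l * S (i + 1) l / 2) =
          (((-1 : ℚ) ^ l) * (-1) ^ l) * ((Nat.choose (i + l + 1) (i + 1) : ℚ) * S (i + 1) l) /
            (2 * 4 ^ (i + l + 1)) := by ring
        _ = _ := by rw [this, one_mul]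
    · rw [if_neg h2, if_neg h2, zero_mul]
  rw [h4]
  unfold R
  rw [sub_div, ← h3]
  ring

theorem choose_mul_S' {N j : ℕ} (h : j < N) :
    (Nat.choose N j : ℚ) * S (j + 1) (N - 1 - j) =
      (2 * (2 * (j : ℚ) + 1)) * cb j * cb (N - 1 - j) / ((N : ℚ) - j) := by
  obtain ⟨l, rfl⟩ : ∃ l, N = j + 1 + l := ⟨N - j - 1, by omega⟩
  rw [show j + 1 + l - 1 - j = l from by omega]
  have h1 := choose_succ_left j l
  have h1' := choose_succ_right j l
  have h2 := choose_pos' (j + 1) l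
  have h3 := choose_pos' j (l + 1)
  have h4 := choose_pos' j l
  unfold S
  rw [cb_succ']
  push_cast
  rw [show j + 1 + l = j + (l + 1) from by omega] at *
  have e1 : ((j : ℚ) + 1 + l - j) = l + 1 := by ring
  rw [e1]
  have h5 : (l : ℚ) + 1 ≠ 0 := by positivity
  have h6 : (j : ℚ) + 1 ≠ 0 := by positivity
  have h7 : ((l : ℚ) + 1) * (Nat.choose (j + (l + 1)) j : ℚ) =
    ((j : ℚ) + 1) * (Nat.choose (j + (l + 1)) (j + 1) : ℚ) := by rw [h1', h1]
  have h8 : (Nat.choose (j + (l + 1)) j : ℚ) =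
    ((j : ℚ) + 1) * (Nat.choose (j + (l + 1)) (j + 1) : ℚ) / (l + 1) := by
    rw [← h7]; field_simp
  rw [h8]
  have h9 : (Nat.choose (j + (l + 1)) (j + 1) : ℚ) ≠ 0 := h2.ne'
  field_simp

theorem V_up (N : ℕ) (hN : 1 ≤ N) :
    (G (2 * N) (ge N) N (N + 1)).coeff N =
      (∑ j ∈ range ((N + 1) / 2), (2 * (2 * (j : ℚ) + 1)) * cb j * cb (N - 1 - j) / ((N : ℚ) - j)) /
        (2 * 4 ^ N) := by
  rw [G_ge _ _ _ _ _ (by omega), show N + 1 - N = 1 from by omega, pow_one]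
  have h := sum_even_support N (fun j => - ((2 * (2 * (j : ℚ) + 1)) * cb j * cb (N - 1 - j) /
    ((N : ℚ) - j) / (2 * 4 ^ N)))
  rw [sum_div, show ∑ j ∈ range ((N + 1) / 2), (2 * (2 * (j : ℚ) + 1)) * cb j * cb (N - 1 - j) /
    ((N : ℚ) - j) / (2 * 4 ^ N) = - ∑ j ∈ range ((N + 1) / 2), -((2 * (2 * (j : ℚ) + 1)) * cb j *
    cb (N - 1 - j) / ((N : ℚ) - j) / (2 * 4 ^ N)) from by rw [sum_neg_distrib, neg_neg], ← h, neg_one_mul]
  congr 1
  refine sum_congr rfl fun k hk => ?_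
  rw [mem_range] at hk
  unfold ge
  by_cases h2 : k % 2 = 0
  · rw [if_pos h2, if_pos h2]
    obtain ⟨j, rfl⟩ : ∃ j, k = 2 * j := ⟨k / 2, by omega⟩
    rw [show 2 * j / 2 = j from by omega, ← choose_mul_S' (by omega : j < N)]
    obtain ⟨l, rfl⟩ : ∃ l, N = j + l + 1 := ⟨N - j - 1, by omega⟩
    have e := co_odd_even j l
    rw [show j + l + 1 - j = l + 1 from by omega,
      show 2 * (j + l + 1) - 1 - 2 * j - 1 = 2 * l from by omega, e,
      show j + l + 1 - 1 - j = l from by omega]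
    have := neg_one_sq_pow l
    calc (-1) ^ (l + 1) * (Nat.choose (j + l + 1) j : ℚ) / 4 ^ (j + l + 1) *
          ((-1) ^ l * S (j + 1) l / 2) =
        -((((-1 : ℚ) ^ l) * (-1) ^ l) * ((Nat.choose (j + l + 1) j : ℚ) * S (j + 1) l) /
          (2 * 4 ^ (j + l + 1))) := by ring
      _ = _ := by rw [this, one_mul]
  · rw [if_neg h2, if_neg h2, zero_mul]

theorem S_comm (j l : ℕ) : S j l = S l j := by
  unfold S
  rw [Nat.choose_symm_add, mul_comm, add_comm j l]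

theorem W_low (N s : ℕ) (hs : s ≤ 2 * N + 1) :
    (G (2 * N + 1) (go N) (s + 1) s).coeff N = (4 ^ N - R N ((s + 1) / 2)) / (2 * 4 ^ N) := by
  rw [G_lt _ _ _ _ _ (Nat.lt_succ_self s), show s + 1 - 1 - s = 0 from by omega, pow_zero, one_mul]
  have h := sum_odd_support (2 * N + 2) (fun j => cb j * cb (N - j) / (2 * 4 ^ N))
  have h' := sum_odd_support (s + 1) (fun j => cb j * cb (N - j) / (2 * 4 ^ N))
  rw [show (2 * N + 2) / 2 = N + 1 from by omega, ← sum_div, full_sum] at h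
  rw [← sum_div] at h'
  have h3 := sum_range_add_sum_Ico (fun k => if k % 2 = 0 then 0 else
    cb (k / 2) * cb (N - k / 2) / (2 * 4 ^ N)) (by omega : s + 1 ≤ 2 * N + 2)
  rw [h, h'] at h3
  have h4 : ∑ k ∈ Ico (s + 1) (2 * N + 1 + 1), go N k * co (k + s - (s + 1))
      (2 * N + 1 + (s + 1) - 1 - s - k) N = ∑ k ∈ Ico (s + 1) (2 * N + 2),
      (if k % 2 = 0 then 0 else cb (k / 2) * cb (N - k / 2) / (2 * 4 ^ N)) := by
    refine sum_congr rfl fun k hk => ?_
    rw [mem_Ico] at hk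
    unfold go
    by_cases h2 : k % 2 = 0
    · rw [if_pos h2, if_pos h2]
      obtain ⟨i, rfl⟩ : ∃ i, k = 2 * (i + 1) := ⟨k / 2 - 1, by omega⟩
      obtain ⟨l, rfl⟩ : ∃ l, N = i + 1 + l := ⟨N - i - 1, by omega⟩
      have e := co_odd_odd i l
      rw [show 2 * (i + 1) + s - (s + 1) = 2 * i + 1 from by omega,
        show 2 * (i + 1 + l) + 1 + (s + 1) - 1 - s - 2 * (i + 1) = 2 * l + 1 from by omega,
        show i + 1 + l = i + l + 1 from by omega, e, mul_zero]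
    · rw [if_neg h2, if_neg h2]
      obtain ⟨j, rfl⟩ : ∃ j, k = 2 * j + 1 := ⟨k / 2, by omega⟩
      obtain ⟨l, rfl⟩ : ∃ l, N = j + l := ⟨N - j, by omega⟩
      have e := co_even_even j l
      have e2 := choose_mul_S (N := j + l) (j := j) (by omega)
      rw [show j + l - j = l from by omega] at e2
      rw [show (2 * j + 1) / 2 = j from by omega, show j + l - j = l from by omega,
        show 2 * j + 1 + s - (s + 1) = 2 * j from by omega,
        show 2 * (j + l) + 1 + (s + 1) - 1 - s - (2 * j + 1) = 2 * l from by omega, ← e2, e]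
      have := neg_one_sq_pow l
      calc (-1) ^ l * (Nat.choose (j + l) j : ℚ) / (2 * 4 ^ (j + l)) * ((-1) ^ l * S j l) =
          (((-1 : ℚ) ^ l) * (-1) ^ l) * ((Nat.choose (j + l) j : ℚ) * S j l) /
            (2 * 4 ^ (j + l)) := by ring
        _ = _ := by rw [this, one_mul]
  rw [h4]
  unfold R
  rw [sub_div, ← h3]
  ring

theorem W_diag (N s : ℕ) (hs : s ≤ 2 * N + 1) :
    (G (2 * N + 1) (go N) s s).coeff N = -(R N ((s + 1) / 2) / (2 * 4 ^ N)) := by
  rw [G_ge _ _ _ _ _ le_rfl, Nat.sub_self, pow_zero, one_mul]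
  have h := sum_even_support s (fun j => -(cb j * cb (N - j) / (2 * 4 ^ N)))
  unfold R
  rw [sum_div, ← sum_neg_distrib, ← h]
  refine sum_congr rfl fun k hk => ?_
  rw [mem_range] at hk
  unfold go
  by_cases h2 : k % 2 = 0
  · rw [if_pos h2, if_pos h2]
    obtain ⟨j, rfl⟩ : ∃ j, k = 2 * j := ⟨k / 2, by omega⟩
    obtain ⟨l, rfl⟩ : ∃ l, N = j + l := ⟨N - j, by omega⟩
    have e := co_even_even j l
    have e2 := choose_mul_S (N := j + l) (j := j) (by omega)
    rw [show j + l - j = l from by omega] at e2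
    rw [show 2 * j / 2 = j from by omega, show j + l - j = l from by omega, add_zero,
      show 2 * (j + l) + 1 - 1 - 2 * j - 0 = 2 * l from by omega, e, ← e2]
    have := neg_one_sq_pow l
    calc -((-1) ^ l * (Nat.choose (j + l) j : ℚ) / (2 * 4 ^ (j + l))) *
          ((-1) ^ l * S j l) =
        -((((-1 : ℚ) ^ l) * (-1) ^ l) * ((Nat.choose (j + l) j : ℚ) * S j l) /
          (2 * 4 ^ (j + l))) := by ring
      _ = _ := by rw [this, one_mul]
  · rw [if_neg h2, if_neg h2, add_zero]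
    obtain ⟨j, rfl⟩ : ∃ j, k = 2 * j + 1 := ⟨k / 2, by omega⟩
    rcases Nat.lt_or_ge j N with hj | hj
    · obtain ⟨l, rfl⟩ : ∃ l, N = j + l + 1 := ⟨N - j - 1, by omega⟩
      rw [show 2 * (j + l + 1) + 1 - 1 - (2 * j + 1) - 0 = 2 * l + 1 from by omega,
        co_odd_odd, mul_zero]
    · omega

theorem W_up (N : ℕ) (hN : 1 ≤ N) :
    (G (2 * N + 1) (go N) (N + 2) N).coeff N =
      -(∑ j ∈ range (N / 2), (2 * (2 * (j : ℚ) + 1)) * cb j * cb (N - 1 - j) / ((N : ℚ) - j)) /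
        (2 * 4 ^ N) := by
  rw [G_lt _ _ _ _ _ (by omega), show N + 2 - 1 - N = 1 from by omega, pow_one, neg_one_mul,
    neg_div]
  congr 1
  have h := sum_even_support (2 * N + 2) (fun i => (Nat.choose N i : ℚ) * S (i - 1) (N + 1 - i) /
    (2 * 4 ^ N))
  have h' := sum_even_support (N + 2) (fun i => (Nat.choose N i : ℚ) * S (i - 1) (N + 1 - i) /
    (2 * 4 ^ N))
  rw [show (2 * N + 2 + 1) / 2 = N + 1 from by omega] at h
  have h3 := sum_range_add_sum_Ico (fun k => if k % 2 = 0 then (Nat.choose N (k / 2) : ℚ) *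
    S (k / 2 - 1) (N + 1 - k / 2) / (2 * 4 ^ N) else 0) (by omega : N + 2 ≤ 2 * N + 2)
  rw [h, h'] at h3
  have h5 := sum_range_add_sum_Ico (fun i => (Nat.choose N i : ℚ) * S (i - 1) (N + 1 - i) /
    (2 * 4 ^ N)) (by omega : (N + 2 + 1) / 2 ≤ N + 1)
  rw [← h5] at h3
  have h3 := add_left_cancel h3
  have h4 : ∑ k ∈ Ico (N + 2) (2 * N + 1 + 1), go N k * co (k + N - (N + 2))
      (2 * N + 1 + (N + 2) - 1 - N - k) N = ∑ k ∈ Ico (N + 2) (2 * N + 2),
      (if k % 2 = 0 then (Nat.choose N (k / 2) : ℚ) *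
        S (k / 2 - 1) (N + 1 - k / 2) / (2 * 4 ^ N) else 0) := by
    refine sum_congr rfl fun k hk => ?_
    rw [mem_Ico] at hk
    unfold go
    by_cases h2 : k % 2 = 0
    · rw [if_pos h2, if_pos h2]
      obtain ⟨i, rfl⟩ : ∃ i, k = 2 * (i + 1) := ⟨k / 2 - 1, by omega⟩
      obtain ⟨l, rfl⟩ : ∃ l, N = i + 1 + l := ⟨N - i - 1, by omega⟩
      have e := co_even_even i (l + 1)
      rw [show 2 * (i + 1) / 2 = i + 1 from by omega, show i + 1 + l - (i + 1) = l from by omega,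
        show 2 * (i + 1) + (i + 1 + l) - (i + 1 + l + 2) = 2 * i from by omega,
        show 2 * (i + 1 + l) + 1 + (i + 1 + l + 2) - 1 - (i + 1 + l) - 2 * (i + 1) =
          2 * (l + 1) from by omega, show i + 1 - 1 = i from by omega,
        show i + 1 + l + 1 - (i + 1) = l + 1 from by omega]
      rw [show co (2 * i) (2 * (l + 1)) (i + 1 + l) = co (2 * i) (2 * (l + 1)) (i + (l + 1)) from by
        congr 1; omega, e]
      have := neg_one_sq_pow l
      calc -((-1) ^ l * (Nat.choose (i + 1 + l) (i + 1) : ℚ) / (2 * 4 ^ (i + 1 + l))) *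
            ((-1) ^ (l + 1) * S i (l + 1)) =
          (((-1 : ℚ) ^ l) * (-1) ^ l) * ((Nat.choose (i + 1 + l) (i + 1) : ℚ) * S i (l + 1)) /
            (2 * 4 ^ (i + 1 + l)) := by ring
        _ = _ := by rw [this, one_mul]
    · rw [if_neg h2, if_neg h2]
      obtain ⟨j, rfl⟩ : ∃ j, k = 2 * (j + 1) + 1 := ⟨k / 2 - 1, by omega⟩
      obtain ⟨l, rfl⟩ : ∃ l, N = j + l + 1 := ⟨N - j - 1, by omega⟩
      rw [show 2 * (j + 1) + 1 + (j + l + 1) - (j + l + 1 + 2) = 2 * j + 1 from by omega,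
        show 2 * (j + l + 1) + 1 + (j + l + 1 + 2) - 1 - (j + l + 1) - (2 * (j + 1) + 1) =
          2 * l + 1 from by omega, co_odd_odd, mul_zero]
  rw [h4, h3, sum_div]
  refine sum_nbij' (fun i => N - i) (fun j => N - j) ?_ ?_ ?_ ?_ ?_
  · intro i hi; rw [mem_Ico] at hi; rw [mem_range]; omega
  · intro j hj; rw [mem_range] at hj; rw [mem_Ico]; omega
  · intro i hi; rw [mem_Ico] at hi; omega
  · intro j hj; rw [mem_range] at hj; omega
  · intro i hi
    rw [mem_Ico] at hi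
    rw [← choose_mul_S' (by omega : N - i < N), Nat.choose_symm (by omega : i ≤ N), S_comm]
    congr 3
    · omega
    · omega

end Pool.Agent.D0H25.Aztec
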