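import Pool.Agent.D0H25.Aztec.Region
import Pool.Agent.D0H25.Aztec.Green

namespace Pool.Agent.D0H25.Aztec

open Finset
open Pool.Agent.Helper848
open Pool.Agent.Helper848.AztecDet (E O K0 G K0_G)

theorem even_gauge (N : ℕ) (hN : 1 ≤ N) (R : Finset (ℤ × ℤ))
    (hR : R = ((aztec (2 * N)).erase (Ec (2 * N) (N + 1) N)).erase (Oc (2 * N) (N - 1) N))
    (s t s' t' : ℕ) (hs : s < 2 * N) (ht : t < 2 * N + 1) (hs' : s' < 2 * N + 1) (ht' : t' < 2 * N)
    (h1 : ¬ (s = N - 1 ∧ t = N)) (h2 : ¬ (s' = N + 1 ∧ t' = N)) :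
    (if (s = N ∧ t = N) ∧ (s' = N ∧ t' = N) then -1 else
      (KZ (2 * N) (⟨s, hs⟩, ⟨t, ht⟩) (⟨s', hs'⟩, ⟨t', ht'⟩))) =
    (-1) ^ ((if N + 1 ≤ t then 1 else 0) + (if t = N ∧ N ≤ s then 1 else 0)) *
      (-1) ^ ((if N ≤ t' then 1 else 0) + (if t' = N ∧ s' ≤ N then 1 else 0)) *
      kast R (Oc (2 * N) s t) (Ec (2 * N) s' t') := by
  have hrE : Ec (2 * N) (N + 1) N ∈ aztec (2 * N) := by
    rw [mem_aztec]; unfold Ec; simp only; omega
  have hrO : Oc (2 * N) (N - 1) N ∈ (aztec (2 * N)).erase (Ec (2 * N) (N + 1) N) := by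
    rw [mem_erase, mem_aztec]
    refine ⟨Ec_ne_Oc.symm, ?_⟩
    unfold Oc; simp only; omega
  have ha1 := above_erase (aztec (2 * N)) (Ec (2 * N) (N + 1) N) (Ec (2 * N) s' t') hrE
  have ha2 := above_erase ((aztec (2 * N)).erase (Ec (2 * N) (N + 1) N)) (Oc (2 * N) (N - 1) N)
    (Ec (2 * N) s' t') hrO
  have hb1 := below_erase (aztec (2 * N)) (Ec (2 * N) (N + 1) N) (Oc (2 * N) s t) hrE
  have hb2 := below_erase ((aztec (2 * N)).erase (Ec (2 * N) (N + 1) N)) (Oc (2 * N) (N - 1) N)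
    (Oc (2 * N) s t) hrO
  rw [above_Ec _ _ _ (by omega) ht'] at ha1
  rw [below_Oc _ _ _ hs (by omega)] at hb1
  rw [← hR] at ha2 hb2
  have c1 : ((Ec (2 * N) (N + 1) N).2 - (Ec (2 * N) (N + 1) N).1 =
      (Ec (2 * N) s' t').2 - (Ec (2 * N) s' t').1 ∧
      (Ec (2 * N) s' t').1 < (Ec (2 * N) (N + 1) N).1) ↔ (t' = N ∧ s' ≤ N) := by
    simp only [Ec]; omega
  have c2 : ¬ ((Oc (2 * N) (N - 1) N).2 - (Oc (2 * N) (N - 1) N).1 =
      (Ec (2 * N) s' t').2 - (Ec (2 * N) s' t').1 ∧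
      (Ec (2 * N) s' t').1 < (Oc (2 * N) (N - 1) N).1) := by
    simp only [Ec, Oc]; omega
  have c3 : ¬ ((Ec (2 * N) (N + 1) N).2 - (Ec (2 * N) (N + 1) N).1 =
      (Oc (2 * N) s t).2 - (Oc (2 * N) s t).1 ∧
      (Ec (2 * N) (N + 1) N).1 < (Oc (2 * N) s t).1) := by
    simp only [Ec, Oc]; omega
  have c4 : ((Oc (2 * N) (N - 1) N).2 - (Oc (2 * N) (N - 1) N).1 =
      (Oc (2 * N) s t).2 - (Oc (2 * N) s t).1 ∧
      (Oc (2 * N) (N - 1) N).1 < (Oc (2 * N) s t).1) ↔ (t = N ∧ N ≤ s) := by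
    simp only [Oc]; omega
  rw [if_congr c1 rfl rfl] at ha1
  rw [if_neg c2, add_zero] at ha2
  rw [if_neg c3, add_zero] at hb1
  rw [if_congr c4 rfl rfl] at hb2
  rw [← ha2] at ha1
  rw [hb1] at hb2
  unfold kast
  rw [if_congr adj_iff rfl rfl]
  have hdiag : ((Oc (2 * N) s t).2 - (Oc (2 * N) s t).1 =
      (Ec (2 * N) s' t').2 - (Ec (2 * N) s' t').1 + 1) ↔ t = t' + 1 := by
    simp only [Oc, Ec]; omega
  rw [if_congr hdiag rfl rfl]
  generalize above R (Ec (2 * N) s' t') = aa at *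
  generalize below R (Oc (2 * N) s t) = bb at *
  clear c1 c2 c3 c4 hb1 ha2 hdiag hrE hrO hR
  unfold KZ
  simp only
  by_cases hadj : (s' = s ∨ s' = s + 1) ∧ (t' = t ∨ t' + 1 = t)
  · rw [if_pos hadj]
    by_cases ht2 : t = t' + 1
    · rw [if_pos ht2, ← pow_add, ← pow_add, npow]
      subst ht2
      have e1 : ¬ t' = t' + 1 := by omega
      rw [if_neg (by omega : ¬ ((s = N ∧ t' + 1 = N) ∧ (s' = N ∧ t' = N))), if_neg e1, if_pos rfl]
      rcases hadj.1 with rfl | rfl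
      · rw [if_neg (by omega : ¬ s' = s' + 1), if_pos rfl, if_pos]
        · norm_num
        · split_ifs at ha1 hb2 ⊢ <;> omega
      · rw [if_pos rfl, if_neg (by omega : ¬ s + 1 = s), if_neg]
        · norm_num
        · split_ifs at ha1 hb2 ⊢ <;> omega
    · have : t' = t := by omega
      subst this
      clear ha1 hb2
      rw [if_neg ht2, ← pow_add, npow, mul_one]
      rw [if_neg (by omega : ¬ t' + 1 = t'), if_pos (rfl : t' = t')]
      rcases hadj.1 with rfl | rfl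
      · rw [if_neg (by omega : ¬ s' = s' + 1), if_pos rfl]
        split_ifs <;> omega
      · rw [if_pos rfl, if_neg (by omega : ¬ s + 1 = s)]
        split_ifs <;> omega
  · rw [if_neg hadj, mul_zero, if_neg (by omega)]
    exact zero_of_not_adj _ _ _ _ hadj

end Pool.Agent.D0H25.Aztec
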