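import Pool.Agent.D0H25.Aztec.Even
import Pool.Agent.D0H25.Aztec.Odd

namespace Pool.Agent.D0H25.Aztec

open Finset
open Pool.Agent.Helper848
open Pool.Agent.Helper848.AztecDet (E O K0 G K0_G)

theorem even_tilings (N : ℕ) (hN : 1 ≤ N) :
    (numTilings (((aztec (2 * N)).erase (0, 1)).erase (-1, -1)) : ℚ) =
      2 ^ (2 * N * (2 * N + 1) / 2) *
      |(G (2 * N) (ge N) N (N + 1)).coeff N * (1 - 2 * (G (2 * N) (ge N) (N + 1) N).coeff N) +
        2 * ((G (2 * N) (ge N) (N + 1) (N + 1)).coeff N * (G (2 * N) (ge N) N N).coeff N)| := by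
  let o1 : O (2 * N) := (⟨N - 1, by omega⟩, ⟨N, by omega⟩)
  let oe : O (2 * N) := (⟨N, by omega⟩, ⟨N, by omega⟩)
  let e2 : E (2 * N) := (⟨N + 1, by omega⟩, ⟨N, by omega⟩)
  let ee : E (2 * N) := (⟨N, by omega⟩, ⟨N, by omega⟩)
  have hne : ee ≠ e2 := by
    intro h
    have := congrArg (fun x : E (2 * N) => (x.1 : ℕ)) h
    simp only [ee, e2] at this
    omega
  have hE : Ec (2 * N) (N + 1) N = (0, 1) := by
    unfold Ec; ext <;> simp only <;> push_cast <;> ring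
  have hO : Oc (2 * N) (N - 1) N = (-1, -1) := by
    unfold Oc; ext <;> simp only <;> omega
  refine tilings_aux' (2 * N) (by omega) o1 oe e2 ee 1 hne _ ?_ ?_
    (fun x => (G (2 * N) (ge N) N x.1).coeff x.2) (fun x => (G (2 * N) (ge N) (N + 1) x.1).coeff x.2)
    ?_ ?_ (fun o => (if N + 1 ≤ (o.2 : ℕ) then 1 else 0) + (if (o.2 : ℕ) = N ∧ N ≤ (o.1 : ℕ) then 1 else 0))
    (fun x => (if N ≤ (x.2 : ℕ) then 1 else 0) + (if (x.2 : ℕ) = N ∧ (x.1 : ℕ) ≤ N then 1 else 0)) ?_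
  · simp only [o1, e2]
    rw [hE, hO]
  · simp [KZ, oe, ee]
  · intro o
    rw [K0_G (2 * N) (ge N) N N hN (by omega) (ge_spec N) o]
    refine if_congr ?_ rfl rfl
    rcases o with ⟨⟨s, hs⟩, ⟨t, ht⟩⟩
    simp only [o1, Prod.mk.injEq, Fin.mk.injEq]
    omega
  · intro o
    rw [K0_G (2 * N) (ge N) (N + 1) N (by omega) (by omega) (ge_spec N) o]
    rw [Int.cast_one]
    refine if_congr ?_ rfl rfl
    rcases o with ⟨⟨s, hs⟩, ⟨t, ht⟩⟩
    simp only [oe, Prod.mk.injEq, Fin.mk.injEq]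
    omega
  · rintro ⟨⟨s, hs⟩, ⟨t, ht⟩⟩ ⟨⟨s', hs'⟩, ⟨t', ht'⟩⟩ h1 h2
    have h := even_gauge N hN (((aztec (2 * N)).erase (0, 1)).erase (-1, -1)) (by rw [hE, hO])
      s t s' t' hs ht hs' ht' (by
        rintro ⟨rfl, rfl⟩
        exact h1 rfl) (by
        rintro ⟨rfl, rfl⟩
        exact h2 rfl)
    simp only
    rw [← h]
    refine if_congr ?_ rfl rfl
    simp only [oe, ee, Prod.mk.injEq, Fin.mk.injEq]

theorem odd_tilings (N : ℕ) (hN : 1 ≤ N) :
    (numTilings (((aztec (2 * N + 1)).erase (-1, -1)).erase (0, 1)) : ℚ) =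
      2 ^ ((2 * N + 1) * (2 * N + 1 + 1) / 2) *
      |(G (2 * N + 1) (go N) (N + 2) N).coeff N *
          (1 - 2 * -(G (2 * N + 1) (go N) (N + 1) (N + 1)).coeff N) +
        2 * (-(G (2 * N + 1) (go N) (N + 1) N).coeff N *
          (G (2 * N + 1) (go N) (N + 2) (N + 1)).coeff N)| := by
  let o1 : O (2 * N + 1) := (⟨N + 1, by omega⟩, ⟨N + 1, by omega⟩)
  let oe : O (2 * N + 1) := (⟨N, by omega⟩, ⟨N + 1, by omega⟩)
  let e2 : E (2 * N + 1) := (⟨N, by omega⟩, ⟨N, by omega⟩)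
  let ee : E (2 * N + 1) := (⟨N + 1, by omega⟩, ⟨N, by omega⟩)
  have hne : ee ≠ e2 := by
    intro h
    have := congrArg (fun x : E (2 * N + 1) => (x.1 : ℕ)) h
    simp only [ee, e2] at this
    omega
  have hE : Ec (2 * N + 1) N N = (-1, -1) := by
    unfold Ec; ext <;> simp only <;> push_cast <;> ring
  have hO : Oc (2 * N + 1) (N + 1) (N + 1) = (0, 1) := by
    unfold Oc; ext <;> simp only <;> push_cast <;> ring
  refine tilings_aux' (2 * N + 1) (by omega) o1 oe e2 ee (-1) hne _ ?_ ?_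
    (fun x => (G (2 * N + 1) (go N) (N + 2) x.1).coeff x.2)
    (fun x => -(G (2 * N + 1) (go N) (N + 1) x.1).coeff x.2)
    ?_ ?_ (fun o => (o.2 : ℕ) + (if N + 1 ≤ (o.2 : ℕ) then 1 else 0))
    (fun x => (x.2 : ℕ) + (if N + 1 ≤ (x.2 : ℕ) then 1 else 0)) ?_
  · simp only [o1, e2]
    rw [hE, hO]
  · simp [KZ, oe, ee]
  · intro o
    rw [K0_G (2 * N + 1) (go N) (N + 2) (N + 1) (by omega) (by omega) (go_spec N) o]
    refine if_congr ?_ rfl rfl
    rcases o with ⟨⟨s, hs⟩, ⟨t, ht⟩⟩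
    simp only [o1, Prod.mk.injEq, Fin.mk.injEq]
    omega
  · intro o
    have h := K0_G (2 * N + 1) (go N) (N + 1) (N + 1) (by omega) (by omega) (go_spec N) o
    have h2 : ∑ x : E (2 * N + 1), K0 (2 * N + 1) o x *
        -(G (2 * N + 1) (go N) (N + 1) x.1).coeff x.2 =
        -∑ x : E (2 * N + 1), K0 (2 * N + 1) o x *
        (G (2 * N + 1) (go N) (N + 1) x.1).coeff x.2 := by
      rw [← sum_neg_distrib]
      exact sum_congr rfl fun x _ => by ring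
    rw [h2, h]
    have h3 : ((o.1 : ℕ) + 1 = N + 1 ∧ (o.2 : ℕ) = N + 1) ↔ o = oe := by
      rcases o with ⟨⟨s, hs⟩, ⟨t, ht⟩⟩
      simp only [oe, Prod.mk.injEq, Fin.mk.injEq]
      omega
    rw [if_congr h3 rfl rfl]
    by_cases h4 : o = oe
    · rw [if_pos h4, if_pos h4]; simp
    · rw [if_neg h4, if_neg h4]; simp
  · rintro ⟨⟨s, hs⟩, ⟨t, ht⟩⟩ ⟨⟨s', hs'⟩, ⟨t', ht'⟩⟩ h1 h2
    have h := odd_gauge N hN (((aztec (2 * N + 1)).erase (-1, -1)).erase (0, 1)) (by rw [hE, hO])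
      s t s' t' hs ht hs' ht' (by
        rintro ⟨rfl, rfl⟩
        exact h1 rfl) (by
        rintro ⟨rfl, rfl⟩
        exact h2 rfl)
    simp only
    rw [← h, neg_neg]
    refine if_congr ?_ rfl rfl
    simp only [oe, ee, Prod.mk.injEq, Fin.mk.injEq]

/-- the density `c_m = binom(2m, m) / 4^m` -/
noncomputable def c (m : ℕ) : ℚ := (Nat.centralBinom m : ℚ) / 4 ^ m

theorem c_sq (m : ℕ) : cb m ^ 2 = c m ^ 2 * 4 ^ (2 * m) := by
  unfold c cb
  rw [div_pow, ← pow_mul, mul_comm m 2]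
  field_simp

theorem c_sq_le (m : ℕ) : c m ^ 2 ≤ 1 := by
  have h := R_even m
  have h2 : 0 ≤ R (2 * m) m := by
    unfold R
    exact sum_nonneg fun j _ => mul_nonneg (cb_pos _).le (cb_pos _).le
  rw [h, c_sq] at h2
  have h3 : (0 : ℚ) < 4 ^ (2 * m) := by positivity
  by_contra hc
  push Not at hc
  have : 4 ^ (2 * m) < c m ^ 2 * 4 ^ (2 * m) := by nlinarith
  linarith

theorem c_succ (m : ℕ) : c (m + 1) = c m * (2 * m + 1) / (2 * (m + 1)) := by
  have h := cb_succ' m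
  unfold cb at h
  unfold c
  rw [h, pow_succ]
  have : (m : ℚ) + 1 ≠ 0 := by positivity
  field_simp
  ring

theorem case0 (m : ℕ) (hm : 1 ≤ m) :
    (numTilings (((aztec (4 * m)).erase (0, 1)).erase (-1, -1)) : ℚ) =
      2 ^ (4 * m * (4 * m + 1) / 2) * ((m : ℚ) / 2 * c m ^ 2 * (1 + c m ^ 2)) := by
  have h := even_tilings (2 * m) (by omega)
  rw [show 2 * (2 * m) = 4 * m from by ring] at h
  rw [h]
  clear h
  congr 1
  rw [show 4 * m = 2 * (2 * m) from by ring]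
  rw [V_up _ (by omega), V_low _ _ (by omega), V_diag _ _ (by omega), V_diag _ _ (by omega)]
  rw [show (2 * m + 1) / 2 = m from by omega, show (2 * m + 2) / 2 = m + 1 from by omega,
    U_eq _ _ (by omega) (by omega), R_even', R_even,
    show 2 * m - m = m from by omega]
  obtain ⟨k, rfl⟩ : ∃ k, m = k + 1 := ⟨m - 1, by omega⟩
  rw [show 2 * (k + 1) - 1 = 2 * k + 1 from by omega, R_odd]
  have e1 : (4 : ℚ) ^ (2 * (k + 1)) = 4 * 4 ^ (2 * k + 1) := by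
    rw [show 2 * (k + 1) = 2 * k + 1 + 1 from by ring, pow_succ]; ring
  have e2 := c_sq (k + 1)
  rw [e1] at e2 ⊢
  generalize c (k + 1) = x at *
  generalize hp : (4 : ℚ) ^ (2 * k + 1) = p at *
  have hp0 : p ≠ 0 := by rw [← hp]; positivity
  have hk : ((k : ℚ) + 1) ≠ 0 := by positivity
  push_cast
  have e3 : ((k : ℚ) + 1) * cb (k + 1) * cb (k + 1) = (k + 1) * (x ^ 2 * (4 * p)) := by
    rw [← e2]; ring
  rw [e3, e2]
  have e4 : (2 * ((2 * (2 * ((k : ℚ) + 1)) + 1) * (((k : ℚ) + 1) * (x ^ 2 * (4 * p)) /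
      (2 * (2 * ((k : ℚ) + 1)))) - 2 * (p / 2)) / (2 * (4 * p)) *
      (1 - 2 * ((4 * p - (4 * p + x ^ 2 * (4 * p)) / 2) / (2 * (4 * p)))) +
      2 * ((4 * p + x ^ 2 * (4 * p)) / 2 / (2 * (4 * p)) *
      ((4 * p - x ^ 2 * (4 * p)) / 2 / (2 * (4 * p))))) =
      ((k : ℚ) + 1) / 2 * x ^ 2 * (1 + x ^ 2) := by
    field_simp
    ring
  rw [e4, abs_of_nonneg (by positivity)]

theorem case2 (m : ℕ) :
    (numTilings (((aztec (4 * m + 2)).erase (0, 1)).erase (-1, -1)) : ℚ) =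
      2 ^ ((4 * m + 2) * (4 * m + 3) / 2) * ((2 * (m : ℚ) + 1) / 4 * c m ^ 2) := by
  have h := even_tilings (2 * m + 1) (by omega)
  rw [show 2 * (2 * m + 1) = 4 * m + 2 from by ring] at h
  rw [h]
  clear h
  congr 1
  rw [show 4 * m + 2 = 2 * (2 * m + 1) from by ring]
  rw [V_up _ (by omega), V_low _ _ (by omega), V_diag _ _ (by omega), V_diag _ _ (by omega)]
  rw [show (2 * m + 1 + 1) / 2 = m + 1 from by omega, show (2 * m + 1 + 2) / 2 = m + 1 from by omega,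
    U_eq _ _ (by omega) (by omega), R_odd,
    show 2 * m + 1 - 1 = 2 * m from by omega, R_even',
    show 2 * m + 1 - (m + 1) = m from by omega]
  have e1 : (4 : ℚ) ^ (2 * m + 1) = 4 * 4 ^ (2 * m) := by
    rw [pow_succ]; ring
  have e2 := c_sq m
  rw [e1]
  generalize c m = x at *
  generalize hp : (4 : ℚ) ^ (2 * m) = p at *
  have hp0 : p ≠ 0 := by rw [← hp]; positivity
  have hk : (2 * (m : ℚ) + 1) ≠ 0 := by positivity
  push_cast
  have e3 : ((m : ℚ) + 1) * cb (m + 1) * cb m = 2 * (2 * m + 1) * (x ^ 2 * p) := by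
    rw [cb_succ, ← e2]; ring
  rw [e3, e2]
  have e4 : (2 * ((2 * (2 * (m : ℚ) + 1) + 1) * (2 * (2 * (m : ℚ) + 1) * (x ^ 2 * p) /
      (2 * (2 * (m : ℚ) + 1))) - 2 * ((p + x ^ 2 * p) / 2)) / (2 * (4 * p)) *
      (1 - 2 * ((4 * p - 4 * p / 2) / (2 * (4 * p)))) +
      2 * (4 * p / 2 / (2 * (4 * p)) * (4 * p / 2 / (2 * (4 * p))))) =
      (2 * (m : ℚ) + 1) / 4 * x ^ 2 := by
    field_simp
    ring
  rw [e4, abs_of_nonneg (by positivity)]

theorem case1 (m : ℕ) (hm : 1 ≤ m) :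
    (numTilings (((aztec (4 * m + 1)).erase (-1, -1)).erase (0, 1)) : ℚ) =
      2 ^ ((4 * m + 1) * (4 * m + 2) / 2) * ((2 * (m : ℚ) + 1) / 4 * c m ^ 2 * (1 - c m ^ 2)) := by
  have h := odd_tilings (2 * m) (by omega)
  rw [show 2 * (2 * m) = 4 * m from by ring] at h
  rw [h]
  clear h
  congr 1
  rw [show 4 * m = 2 * (2 * m) from by ring]
  rw [W_up _ (by omega), W_diag _ _ (by omega), W_low _ _ (by omega), W_low _ _ (by omega)]
  rw [show (2 * m + 1) / 2 = m from by omega, show (2 * m) / 2 = m from by omega,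
    show (2 * m + 1 + 1) / 2 = m + 1 from by omega, U_eq _ _ (by omega) (by omega), R_even', R_even,
    show 2 * m - m = m from by omega]
  have hle := c_sq_le m
  obtain ⟨k, rfl⟩ : ∃ k, m = k + 1 := ⟨m - 1, by omega⟩
  rw [show 2 * (k + 1) - 1 = 2 * k + 1 from by omega, R_odd]
  have e1 : (4 : ℚ) ^ (2 * (k + 1)) = 4 * 4 ^ (2 * k + 1) := by
    rw [show 2 * (k + 1) = 2 * k + 1 + 1 from by ring, pow_succ]; ring
  have e2 := c_sq (k + 1)
  rw [e1] at e2 ⊢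
  generalize c (k + 1) = x at *
  generalize hp : (4 : ℚ) ^ (2 * k + 1) = p at *
  have hp0 : p ≠ 0 := by rw [← hp]; positivity
  have hk : ((k : ℚ) + 1) ≠ 0 := by positivity
  push_cast
  have e3 : ((k : ℚ) + 1) * cb (k + 1) * cb (k + 1) = (k + 1) * (x ^ 2 * (4 * p)) := by
    rw [← e2]; ring
  rw [e3, e2]
  have e4 : (-(2 * ((2 * (2 * ((k : ℚ) + 1)) + 1) * (((k : ℚ) + 1) * (x ^ 2 * (4 * p)) /
      (2 * (2 * ((k : ℚ) + 1)))) - 2 * (p / 2))) / (2 * (4 * p)) *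
      (1 - 2 * - -((4 * p + x ^ 2 * (4 * p)) / 2 / (2 * (4 * p)))) +
      2 * (-((4 * p - (4 * p - x ^ 2 * (4 * p)) / 2) / (2 * (4 * p))) *
      ((4 * p - (4 * p + x ^ 2 * (4 * p)) / 2) / (2 * (4 * p))))) =
      -((2 * ((k : ℚ) + 1) + 1) / 4 * x ^ 2 * (1 - x ^ 2)) := by
    field_simp
    ring
  have h1 : 0 ≤ 1 - x ^ 2 := by linarith
  rw [e4, abs_neg, abs_of_nonneg (by positivity)]

theorem case3 (m : ℕ) :
    (numTilings (((aztec (4 * m + 3)).erase (-1, -1)).erase (0, 1)) : ℚ) =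
      2 ^ ((4 * m + 3) * (4 * m + 4) / 2) * ((2 * (m : ℚ) + 1) / 4 * c m * c (m + 1)) := by
  have h := odd_tilings (2 * m + 1) (by omega)
  rw [show 2 * (2 * m + 1) = 4 * m + 2 from by ring] at h
  rw [h]
  clear h
  congr 1
  rw [show 4 * m + 2 = 2 * (2 * m + 1) from by ring]
  rw [W_up _ (by omega), W_diag _ _ (by omega), W_low _ _ (by omega), W_low _ _ (by omega)]
  rw [show (2 * m + 1) / 2 = m from by omega, show (2 * m + 1 + 1 + 1) / 2 = m + 1 from by omega,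
    show (2 * m + 1 + 1) / 2 = m + 1 from by omega, U_eq _ _ (by omega) (by omega), R_odd,
    show 2 * m + 1 - 1 = 2 * m from by omega, R_even,
    show 2 * m + 1 - m = m + 1 from by omega]
  have e1 : (4 : ℚ) ^ (2 * m + 1) = 4 * 4 ^ (2 * m) := by
    rw [pow_succ]; ring
  have e2 := c_sq m
  rw [e1, c_succ]
  have hm1 : ((m : ℚ) + 1) ≠ 0 := by positivity
  have hc0 : 0 ≤ c m := by unfold c; positivity
  generalize c m = x at *
  generalize hp : (4 : ℚ) ^ (2 * m) = p at *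
  have hp0 : p ≠ 0 := by rw [← hp]; positivity
  have hk : (2 * (m : ℚ) + 1) ≠ 0 := by positivity
  push_cast
  have e3 : (m : ℚ) * cb m * cb (m + 1) = m * (2 * (2 * m + 1) * (x ^ 2 * p)) / (m + 1) := by
    rw [cb_succ', ← e2]; ring
  rw [e3, e2]
  have e4 : (-(2 * ((2 * (2 * (m : ℚ) + 1) + 1) * (m * (2 * (2 * m + 1) * (x ^ 2 * p)) / (m + 1) /
      (2 * (2 * (m : ℚ) + 1))) - 2 * ((p - x ^ 2 * p) / 2))) / (2 * (4 * p)) *
      (1 - 2 * - -(4 * p / 2 / (2 * (4 * p)))) +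
      2 * (-((4 * p - 4 * p / 2) / (2 * (4 * p))) * ((4 * p - 4 * p / 2) / (2 * (4 * p))))) =
      -((2 * (m : ℚ) + 1) / 4 * x * (x * (2 * m + 1) / (2 * (m + 1)))) := by
    field_simp
    ring
  rw [e4, abs_neg, abs_of_nonneg (by positivity)]

end Pool.Agent.D0H25.Aztec
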