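import Pool.Agent.Helper848.AztecDet

namespace Pool.Agent.D0H25.Aztec

open Finset
open Pool.Agent.Helper848.AztecDet (splitEquiv splitEquiv_symm_inl splitEquiv_symm_inr det_twoUpdate)

variable {R J : Type*} [Fintype J] [DecidableEq J] [DecidableEq R]

/-- determinant of a minor with one changed sign -/
theorem abs_det_minor' (K : Matrix R J ℚ) (H1 H2 : J → ℚ) (o1 oe : R) (e2 ee : J) (κ : ℚ) (hne : ee ≠ e2)
    (h1 : ∀ o, ∑ x, K o x * H1 x = if o = o1 then 1 else 0)
    (h2 : ∀ o, ∑ x, K o x * H2 x = if o = oe then κ else 0)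
    (hκ : K oe ee = κ)
    (φ : {x : J // x ≠ e2} ≃ {o : R // o ≠ o1}) :
    ∃ e : J ≃ R,
    |(Matrix.of fun i j : {x : J // x ≠ e2} => if (φ i : R) = oe ∧ (j : J) = ee then -κ
      else K (φ i) j).det| =
    |(K.submatrix e id).det| * |H1 e2 * (1 - 2 * H2 ee) + 2 * (H2 e2 * H1 ee)| := by
  classical
  -- the equivalences
  let Φ : J ≃ {x : J // x ≠ e2} ⊕ Unit := splitEquiv e2
  let Ψ : R ≃ {x : R // x ≠ o1} ⊕ Unit := splitEquiv o1
  let e : J ≃ R := (Φ.trans (Equiv.sumCongr φ (Equiv.refl Unit))).trans Ψ.symm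
  refine ⟨e, ?_⟩
  let K2 : Matrix R J ℚ := Matrix.of fun o x => if x = e2 then (if o = o1 then 1 else 0)
    else if o = oe ∧ x = ee then -κ else K o x
  let Xm : Matrix J J ℚ := 1 + (Matrix.vecMulVec (H1 - Pi.single e2 1) (Pi.single e2 1) -
      Matrix.vecMulVec ((2 : ℚ) • H2) (Pi.single ee 1))
  have hK2 : K2 = K * Xm := by
    ext o x
    have hs : ∀ z : J, ∑ y, K o y * (Pi.single z (1 : ℚ) : J → ℚ) y = K o z := by
      intro z
      rw [Finset.sum_eq_single z]
      · simp
      · intro b _ hb; simp [hb]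
      · simp
    have hexp : (K * Xm) o x = K o x + ((∑ y, K o y * H1 y) - ∑ y, K o y *
        (Pi.single e2 (1 : ℚ) : J → ℚ) y) * (Pi.single e2 (1 : ℚ) : J → ℚ) x -
        2 * (∑ y, K o y * H2 y) * (Pi.single ee (1 : ℚ) : J → ℚ) x := by
      simp only [Xm, Matrix.mul_add, Matrix.mul_sub, Matrix.mul_one, Matrix.add_apply,
        Matrix.sub_apply]
      rw [Matrix.mul_apply, Matrix.mul_apply]
      simp only [Matrix.vecMulVec_apply]
      have e1 : ∑ y, K o y * ((H1 - (Pi.single e2 1 : J → ℚ)) y * (Pi.single e2 (1 : ℚ) : J → ℚ) x) =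
          ((∑ y, K o y * H1 y) - ∑ y, K o y *
        (Pi.single e2 (1 : ℚ) : J → ℚ) y) * (Pi.single e2 (1 : ℚ) : J → ℚ) x := by
        rw [← Finset.sum_sub_distrib, Finset.sum_mul]
        refine Finset.sum_congr rfl fun y _ => ?_
        simp only [Pi.sub_apply]; ring
      have e2' : ∑ y, K o y * (((2 : ℚ) • H2) y * (Pi.single ee (1 : ℚ) : J → ℚ) x) =
          2 * (∑ y, K o y * H2 y) * (Pi.single ee (1 : ℚ) : J → ℚ) x := by
        rw [Finset.mul_sum, Finset.sum_mul]
        refine Finset.sum_congr rfl fun y _ => ?_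
        simp only [Pi.smul_apply, smul_eq_mul]; ring
      rw [e1, e2']
      ring
    rw [hexp, h1, h2, hs]
    simp only [K2, Matrix.of_apply]
    by_cases hx : x = e2
    · subst hx
      simp [hne.symm]
    · by_cases hx2 : x = ee
      · subst hx2
        by_cases ho : o = oe
        · subst ho
          simp [hx, hκ]
          ring
        · simp [hx, ho]
      · simp [hx, hx2]
  have hblock : K2.submatrix (fun y => e (Φ.symm y)) (fun y => Φ.symm y) =
      Matrix.fromBlocks (Matrix.of fun i j : {x : J // x ≠ e2} =>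
        if (φ i : R) = oe ∧ (j : J) = ee then -κ else K (φ i) j) 0
        (Matrix.of fun _ j => K2 o1 j) 1 := by
    ext i j
    rcases i with i | i <;> rcases j with j | j
    · simp [e, Φ, Ψ, K2, j.2]
    · simp [e, Φ, Ψ, K2, (φ i).2]
    · simp [e, Φ, Ψ]
    · simp [e, Φ, Ψ, K2]
  have hd1 : (Matrix.of fun i j : {x : J // x ≠ e2} => if (φ i : R) = oe ∧ (j : J) = ee then -κ
      else K (φ i) j).det = (K2.submatrix e id).det := by
    have := congrArg Matrix.det hblock
    rw [Matrix.det_fromBlocks_zero₁₂, Matrix.det_one, mul_one] at this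
    rw [← this]
    have h3 : K2.submatrix (fun y => e (Φ.symm y)) (fun y => Φ.symm y) =
      (K2.submatrix e id).submatrix Φ.symm Φ.symm := by
      ext i j; rfl
    rw [h3, Matrix.det_submatrix_equiv_self]
  have hd2 : (K2.submatrix e id) = (K.submatrix e id) * Xm := by
    rw [hK2]; ext i j; simp [Matrix.mul_apply]
  rw [hd1, hd2, Matrix.det_mul, abs_mul, det_twoUpdate H1 H2 e2 ee hne]


end Pool.Agent.D0H25.Aztec
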