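import Pool.Agent.Helper848.Kast
import Pool.Agent.D0H25.Aztec.Minor

namespace Pool.Agent.D0H25.Aztec

open Finset
open Pool.Agent.Helper848
open Pool.Agent.Helper848.AztecDet (E O K0 abs_det_K0)

/-- The Aztec diamond of order `n`; the cell `(a, b)` is the unit square with centre
`(a + 1/2, b + 1/2)`. -/
noncomputable def aztec (n : ℕ) : Finset (ℤ × ℤ) :=
  ((Icc (-(n : ℤ)) n) ×ˢ (Icc (-(n : ℤ)) n)).filter fun c => |2 * c.1 + 1| + |2 * c.2 + 1| ≤ 2 * n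

theorem mem_aztec (n : ℕ) (c : ℤ × ℤ) : c ∈ aztec n ↔
    (-(n : ℤ) ≤ c.1 + c.2 + 1 ∧ c.1 + c.2 + 1 ≤ n) ∧ -(n : ℤ) ≤ c.2 - c.1 ∧ c.2 - c.1 ≤ n := by
  unfold aztec
  rw [mem_filter, mem_product, mem_Icc, mem_Icc]
  rcases abs_cases (2 * c.1 + 1) with ⟨h1, h2⟩ | ⟨h1, h2⟩ <;>
  rcases abs_cases (2 * c.2 + 1) with ⟨h3, h4⟩ | ⟨h3, h4⟩ <;> rw [h1, h3] <;> omega

/-- cells of the first type -/
def Ec (n s t : ℕ) : ℤ × ℤ := ((s : ℤ) - t - 1, (s : ℤ) + t - n)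

/-- cells of the second type -/
def Oc (n s t : ℕ) : ℤ × ℤ := ((s : ℤ) - t, (s : ℤ) + t - n)

theorem Ec_iff (n : ℕ) (p : ℤ × ℤ) : (∃ x : E n, Ec n x.1 x.2 = p) ↔
    p ∈ aztec n ∧ Even (p.1 + p.2 + (n + 1)) := by
  rw [mem_aztec, Int.even_iff]
  constructor
  · rintro ⟨⟨⟨s, hs⟩, ⟨t, ht⟩⟩, rfl⟩
    unfold Ec
    simp only
    omega
  · rintro ⟨⟨⟨h1, h2⟩, h3, h4⟩, h5⟩
    refine ⟨(⟨((p.1 + p.2 + n + 1) / 2).toNat, by omega⟩, ⟨((p.2 - p.1 + n - 1) / 2).toNat, by omega⟩), ?_⟩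
    unfold Ec
    simp only
    ext <;> simp only <;> omega

theorem Oc_iff (n : ℕ) (p : ℤ × ℤ) : (∃ x : O n, Oc n x.1 x.2 = p) ↔
    p ∈ aztec n ∧ ¬ Even (p.1 + p.2 + (n + 1)) := by
  rw [mem_aztec, Int.even_iff]
  constructor
  · rintro ⟨⟨⟨s, hs⟩, ⟨t, ht⟩⟩, rfl⟩
    unfold Oc
    simp only
    omega
  · rintro ⟨⟨⟨h1, h2⟩, h3, h4⟩, h5⟩
    refine ⟨(⟨((p.1 + p.2 + n) / 2).toNat, by omega⟩, ⟨((p.2 - p.1 + n) / 2).toNat, by omega⟩), ?_⟩
    unfold Oc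
    simp only
    ext <;> simp only <;> omega

theorem Ec_inj {n s t s' t' : ℕ} : Ec n s t = Ec n s' t' ↔ s = s' ∧ t = t' := by
  unfold Ec
  rw [Prod.mk.injEq]
  omega

theorem Oc_inj {n s t s' t' : ℕ} : Oc n s t = Oc n s' t' ↔ s = s' ∧ t = t' := by
  unfold Oc
  rw [Prod.mk.injEq]
  omega

theorem Ec_ne_Oc {n s t s' t' : ℕ} : Ec n s t ≠ Oc n s' t' := by
  unfold Ec Oc
  intro h
  rw [Prod.mk.injEq] at h
  omega

theorem adj_iff {n s t s' t' : ℕ} : Adj (Ec n s' t') (Oc n s t) ↔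
    (s' = s ∨ s' = s + 1) ∧ (t' = t ∨ t' + 1 = t) := by
  unfold Adj Ec Oc
  simp only
  omega

theorem above_Ec (n s t : ℕ) (hs : s ≤ n) (ht : t < n) : above (aztec n) (Ec n s t) = n - s := by
  unfold above
  have : ((aztec n).filter fun q => q.2 - q.1 = (Ec n s t).2 - (Ec n s t).1 ∧ (Ec n s t).1 < q.1) =
      (Ioc s n).image fun u => Ec n u t := by
    ext q
    rw [mem_filter, mem_aztec, mem_image]
    constructor
    · rintro ⟨⟨⟨h1, h2⟩, h3, h4⟩, h5, h6⟩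
      unfold Ec at h5 h6
      simp only at h5 h6
      refine ⟨(q.1 + t + 1).toNat, ?_, ?_⟩
      · rw [mem_Ioc]; omega
      · unfold Ec
        ext <;> simp only <;> omega
    · rintro ⟨u, hu, rfl⟩
      rw [mem_Ioc] at hu
      unfold Ec
      simp only
      omega
  rw [this, card_image_of_injOn, Nat.card_Ioc]
  intro u _ v _ h
  exact (Ec_inj.1 h).1

theorem below_Oc (n s t : ℕ) (hs : s < n) (ht : t ≤ n) : below (aztec n) (Oc n s t) = s := by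
  unfold below
  have : ((aztec n).filter fun q => q.2 - q.1 = (Oc n s t).2 - (Oc n s t).1 ∧ q.1 < (Oc n s t).1) =
      (range s).image fun u => Oc n u t := by
    ext q
    rw [mem_filter, mem_aztec, mem_image]
    constructor
    · rintro ⟨⟨⟨h1, h2⟩, h3, h4⟩, h5, h6⟩
      unfold Oc at h5 h6
      simp only at h5 h6
      refine ⟨(q.1 + t).toNat, ?_, ?_⟩
      · rw [mem_range]; omega
      · unfold Oc
        ext <;> simp only <;> omega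
    · rintro ⟨u, hu, rfl⟩
      rw [mem_range] at hu
      unfold Oc
      simp only
      omega
  rw [this, card_image_of_injOn, card_range]
  intro u _ v _ h
  exact (Oc_inj.1 h).1

theorem above_erase (A : Finset (ℤ × ℤ)) (r p : ℤ × ℤ) (hr : r ∈ A) :
    above (A.erase r) p + (if r.2 - r.1 = p.2 - p.1 ∧ p.1 < r.1 then 1 else 0) = above A p := by
  unfold above
  rw [filter_erase]
  split_ifs with h
  · rw [card_erase_of_mem (by rw [mem_filter]; exact ⟨hr, h⟩)]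
    have : 0 < (A.filter fun q => q.2 - q.1 = p.2 - p.1 ∧ p.1 < q.1).card :=
      card_pos.2 ⟨r, by rw [mem_filter]; exact ⟨hr, h⟩⟩
    omega
  · rw [erase_eq_of_notMem (by rw [mem_filter]; exact fun hh => h hh.2), add_zero]

theorem below_erase (A : Finset (ℤ × ℤ)) (r p : ℤ × ℤ) (hr : r ∈ A) :
    below (A.erase r) p + (if r.2 - r.1 = p.2 - p.1 ∧ r.1 < p.1 then 1 else 0) = below A p := by
  unfold below
  rw [filter_erase]
  split_ifs with h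
  · rw [card_erase_of_mem (by rw [mem_filter]; exact ⟨hr, h⟩)]
    have : 0 < (A.filter fun q => q.2 - q.1 = p.2 - p.1 ∧ q.1 < p.1).card :=
      card_pos.2 ⟨r, by rw [mem_filter]; exact ⟨hr, h⟩⟩
    omega
  · rw [erase_eq_of_notMem (by rw [mem_filter]; exact fun hh => h hh.2), add_zero]

/-- the integer version of the Kasteleyn matrix of the Aztec diamond -/
def KZ (n : ℕ) (o : O n) (x : E n) : ℤ :=
  (if (x.1 : ℕ) = o.1 + 1 then (1 : ℤ) else 0) *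
    ((if (x.2 : ℕ) = o.2 then 1 else 0) - (if (x.2 : ℕ) + 1 = o.2 then 1 else 0)) +
  (if (x.1 : ℕ) = o.1 then (1 : ℤ) else 0) *
    ((if (x.2 : ℕ) = o.2 then 1 else 0) + (if (x.2 : ℕ) + 1 = o.2 then 1 else 0))

theorem K0_eq (n : ℕ) (o : O n) (x : E n) : K0 n o x = (KZ n o x : ℚ) := by
  unfold K0 KZ
  rw [Matrix.of_apply]
  push_cast
  rfl

theorem tilings_aux (m : ℕ) (o1 oe : O (m + 1)) (e2 ee : E (m + 1)) (κ : ℤ) (hne : ee ≠ e2)
    (R : Finset (ℤ × ℤ))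
    (hR : R = ((aztec (m + 1)).erase (Ec (m + 1) e2.1 e2.2)).erase (Oc (m + 1) o1.1 o1.2))
    (hK : KZ (m + 1) oe ee = κ) (H1 H2 : E (m + 1) → ℚ)
    (h1 : ∀ o, ∑ x, K0 (m + 1) o x * H1 x = if o = o1 then 1 else 0)
    (h2 : ∀ o, ∑ x, K0 (m + 1) o x * H2 x = if o = oe then (κ : ℚ) else 0)
    (a : O (m + 1) → ℕ) (b : E (m + 1) → ℕ)
    (hg : ∀ (o : O (m + 1)) (x : E (m + 1)), o ≠ o1 → x ≠ e2 →
      (if o = oe ∧ x = ee then -κ else KZ (m + 1) o x) =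
        (-1) ^ (a o) * (-1) ^ (b x) * kast R (Oc (m + 1) o.1 o.2) (Ec (m + 1) x.1 x.2)) :
    (numTilings R : ℚ) = 2 ^ ((m + 1) * (m + 2) / 2) *
      |H1 e2 * (1 - 2 * H2 ee) + 2 * (H2 e2 * H1 ee)| := by
  classical
  let n := m + 1
  have hcard : Fintype.card {x : E (m + 1) // x ≠ e2} = Fintype.card {o : O (m + 1) // o ≠ o1} := by
    rw [Fintype.card_subtype_compl, Fintype.card_subtype_compl, Fintype.card_subtype_eq,
      Fintype.card_subtype_eq]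
    congr 1
    rw [Fintype.card_prod, Fintype.card_prod, mul_comm]
  let φ : {x : E (m + 1) // x ≠ e2} ≃ {o : O (m + 1) // o ≠ o1} := Fintype.equivOfCardEq hcard
  let f : {x : E (m + 1) // x ≠ e2} → ℤ × ℤ := fun j => Ec (m + 1) j.1.1 j.1.2
  let g : {x : E (m + 1) // x ≠ e2} → ℤ × ℤ := fun i => Oc (m + 1) (φ i).1.1 (φ i).1.2
  let M : Matrix {x : E (m + 1) // x ≠ e2} {x : E (m + 1) // x ≠ e2} ℤ :=
    Matrix.of fun i j => if (φ i : O (m + 1)) = oe ∧ (j : E (m + 1)) = ee then -κ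
      else KZ (m + 1) (φ i) j
  have hf : Function.Injective f := by
    intro i j h
    have h := Ec_inj.1 h
    exact Subtype.ext (Prod.ext (Fin.ext h.1) (Fin.ext h.2))
  have hg' : Function.Injective g := by
    intro i j h
    have h := Oc_inj.1 h
    exact φ.injective (Subtype.ext (Prod.ext (Fin.ext h.1) (Fin.ext h.2)))
  have hfR : ∀ p, (∃ i, f i = p) ↔ p ∈ R ∧ Even (p.1 + p.2 + ((m + 1 : ℕ) + 1 : ℤ)) := by
    intro p
    rw [hR, mem_erase, mem_erase]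
    constructor
    · rintro ⟨i, rfl⟩
      have h := (Ec_iff (m + 1) (f i)).1 ⟨i.1, rfl⟩
      refine ⟨⟨Ec_ne_Oc, ?_, h.1⟩, h.2⟩
      intro hc
      exact i.2 (Prod.ext (Fin.ext (Ec_inj.1 hc).1) (Fin.ext (Ec_inj.1 hc).2))
    · rintro ⟨⟨_, h3, h4⟩, h5⟩
      obtain ⟨x, rfl⟩ := (Ec_iff (m + 1) p).2 ⟨h4, h5⟩
      exact ⟨⟨x, fun hc => h3 (by rw [hc])⟩, rfl⟩
  have hgR : ∀ p, (∃ i, g i = p) ↔ p ∈ R ∧ ¬ Even (p.1 + p.2 + ((m + 1 : ℕ) + 1 : ℤ)) := by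
    intro p
    rw [hR, mem_erase, mem_erase]
    constructor
    · rintro ⟨i, rfl⟩
      have h := (Oc_iff (m + 1) (g i)).1 ⟨(φ i).1, rfl⟩
      refine ⟨⟨?_, Ec_ne_Oc.symm, h.1⟩, h.2⟩
      intro hc
      exact (φ i).2 (Prod.ext (Fin.ext (Oc_inj.1 hc).1) (Fin.ext (Oc_inj.1 hc).2))
    · rintro ⟨⟨h2, _, h4⟩, h5⟩
      obtain ⟨x, rfl⟩ := (Oc_iff (m + 1) p).2 ⟨h4, h5⟩
      exact ⟨φ.symm ⟨x, fun hc => h2 (by rw [hc])⟩, by simp only [g, Equiv.apply_symm_apply]⟩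
  have hkey := numTilings_eq ((m + 1 : ℕ) + 1 : ℤ) R f g hf hg' hfR hgR
    (fun i => (-1) ^ (a (φ i))) (fun j => (-1) ^ (b j)) M (by
      intro i j
      have := hg (φ i) j (φ i).2 j.2
      simp only [M, f, g, Matrix.of_apply]
      rw [this]
      push_cast
      rfl)
  obtain ⟨e, he⟩ := abs_det_minor' (K0 (m + 1)) H1 H2 o1 oe e2 ee (κ : ℚ) hne h1 h2
    (by rw [K0_eq, hK]) φ
  rw [hkey, ← abs_det_K0 m e, ← he]
  have hM : (Matrix.of fun i j : {x : E (m + 1) // x ≠ e2} =>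
      if (φ i : O (m + 1)) = oe ∧ (j : E (m + 1)) = ee then -(κ : ℚ) else K0 (m + 1) (φ i) j) =
      M.map (Int.castRingHom ℚ) := by
    ext i j
    simp only [M, Matrix.of_apply, Matrix.map_apply]
    split_ifs
    · simp
    · rw [K0_eq]; simp
  rw [hM]
  have : (M.map (Int.castRingHom ℚ)).det = ((M.det : ℤ) : ℚ) := by
    rw [← RingHom.mapMatrix_apply, ← RingHom.map_det]; rfl
  rw [this, ← Int.cast_abs, Int.abs_eq_natAbs]
  rfl

theorem tilings_aux' (n : ℕ) (hn : 1 ≤ n) (o1 oe : O n) (e2 ee : E n) (κ : ℤ) (hne : ee ≠ e2)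
    (R : Finset (ℤ × ℤ))
    (hR : R = ((aztec n).erase (Ec n e2.1 e2.2)).erase (Oc n o1.1 o1.2))
    (hK : KZ n oe ee = κ) (H1 H2 : E n → ℚ)
    (h1 : ∀ o, ∑ x, K0 n o x * H1 x = if o = o1 then 1 else 0)
    (h2 : ∀ o, ∑ x, K0 n o x * H2 x = if o = oe then (κ : ℚ) else 0)
    (a : O n → ℕ) (b : E n → ℕ)
    (hg : ∀ (o : O n) (x : E n), o ≠ o1 → x ≠ e2 →
      (if o = oe ∧ x = ee then -κ else KZ n o x) =
        (-1) ^ (a o) * (-1) ^ (b x) * kast R (Oc n o.1 o.2) (Ec n x.1 x.2)) :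
    (numTilings R : ℚ) = 2 ^ (n * (n + 1) / 2) *
      |H1 e2 * (1 - 2 * H2 ee) + 2 * (H2 e2 * H1 ee)| := by
  obtain ⟨m, rfl⟩ : ∃ m, n = m + 1 := ⟨n - 1, by omega⟩
  exact tilings_aux m o1 oe e2 ee κ hne R hR hK H1 H2 h1 h2 a b hg

theorem zero_of_not_adj (c1 c2 d1 d2 : Prop) [Decidable c1] [Decidable c2] [Decidable d1]
    [Decidable d2] (h : ¬ ((c1 ∨ c2) ∧ (d1 ∨ d2))) : (if c2 then (1 : ℤ) else 0) *
    ((if d1 then 1 else 0) - (if d2 then 1 else 0)) + (if c1 then (1 : ℤ) else 0) *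
    ((if d1 then 1 else 0) + (if d2 then 1 else 0)) = 0 := by
  rcases not_and_or.1 h with h | h
  · rw [not_or] at h
    rw [if_neg h.1, if_neg h.2]; ring
  · rw [not_or] at h
    rw [if_neg h.1, if_neg h.2]; ring

theorem npow (e : ℕ) : (-1 : ℤ) ^ e = if e % 2 = 0 then 1 else -1 := by
  split_ifs with h
  · exact Even.neg_one_pow (Nat.even_iff.2 h)
  · exact Odd.neg_one_pow (Nat.odd_iff.2 (by omega))

end Pool.Agent.D0H25.Aztec
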