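import Pool.Agent.D0H25.Aztec.Alg

namespace Pool.Agent.D0H25.Aztec

open Polynomial Finset

theorem X_pow_expand (N : ℕ) : (X ^ N : ℚ[X]) = ∑ j ∈ range (N + 1),
    C ((-1) ^ (N - j) * (Nat.choose N j : ℚ) / 4 ^ N) *
      ((1 + X) ^ (2 * j) * (1 - X) ^ (2 * (N - j))) := by
  have h0 : (4 : ℚ) ^ N ≠ 0 := by positivity
  have h1 : (C ((4 : ℚ) ^ N) * X ^ N : ℚ[X]) = ∑ j ∈ range (N + 1),
    C ((-1) ^ (N - j) * (Nat.choose N j : ℚ)) *
      ((1 + X) ^ (2 * j) * (1 - X) ^ (2 * (N - j))) := by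
    have e : (C ((4 : ℚ) ^ N) * X ^ N : ℚ[X]) = ((1 + X) ^ 2 + (-(1 - X) ^ 2)) ^ N := by
      rw [C_pow, ← mul_pow]
      congr 1
      have : (C 4 : ℚ[X]) = 4 := rfl
      rw [this]; ring
    rw [e, add_pow]
    refine sum_congr rfl fun j _ => ?_
    rw [C_mul, C_pow, C_neg, C_1, neg_pow ((1 - X : ℚ[X]) ^ 2), ← pow_mul, ← pow_mul]
    have : (C (Nat.choose N j : ℚ) : ℚ[X]) = (Nat.choose N j : ℚ[X]) := by simp
    rw [this]; ring
  have h2 : (X ^ N : ℚ[X]) = C (1 / (4 : ℚ) ^ N) * (C ((4 : ℚ) ^ N) * X ^ N) := by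
    rw [← mul_assoc, ← C_mul, one_div, inv_mul_cancel₀ h0, C_1, one_mul]
  rw [h2, h1, mul_sum]
  refine sum_congr rfl fun j _ => ?_
  rw [← mul_assoc, ← C_mul]
  congr 2
  ring

theorem choose_mul_S {N j : ℕ} (h : j ≤ N) : (Nat.choose N j : ℚ) * S j (N - j) = cb j * cb (N - j) := by
  unfold S
  rw [show j + (N - j) = N from by omega]
  have : (Nat.choose N j : ℚ) ≠ 0 := by exact_mod_cast (Nat.choose_pos h).ne'
  field_simp

theorem full_sum (N : ℕ) : ∑ j ∈ range (N + 1), cb j * cb (N - j) = 4 ^ N := by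
  have h := congrArg (fun p : ℚ[X] => p.coeff N) (X_pow_expand N)
  simp only [coeff_X_pow, if_true, finsetSum_coeff, coeff_C_mul] at h
  have h0 : (4 : ℚ) ^ N ≠ 0 := by positivity
  have h1 : ∀ j ∈ range (N + 1), (-1) ^ (N - j) * (Nat.choose N j : ℚ) / 4 ^ N *
      ((1 + X) ^ (2 * j) * (1 - X) ^ (2 * (N - j)) : ℚ[X]).coeff N =
      cb j * cb (N - j) / 4 ^ N := by
    intro j hj
    rw [mem_range] at hj
    have e := co_even_even j (N - j)
    unfold co at e
    rw [show j + (N - j) = N from by omega] at e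
    rw [e, ← choose_mul_S (by omega : j ≤ N)]
    have : ((-1 : ℚ) ^ (N - j)) * (-1) ^ (N - j) = 1 := by
      rw [← mul_pow]; simp
    calc (-1) ^ (N - j) * (Nat.choose N j : ℚ) / 4 ^ N * ((-1) ^ (N - j) * S j (N - j))
        = (((-1 : ℚ) ^ (N - j)) * (-1) ^ (N - j)) * ((Nat.choose N j : ℚ) * S j (N - j) / 4 ^ N) := by ring
      _ = _ := by rw [this, one_mul]
  rw [sum_congr rfl h1, ← sum_div, eq_div_iff h0, one_mul] at h
  exact h.symm

/-- partial sums -/
noncomputable def R (N J : ℕ) : ℚ := ∑ j ∈ range J, cb j * cb (N - j)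

theorem R_succ (N J : ℕ) : R N (J + 1) = R N J + cb J * cb (N - J) := by
  unfold R; rw [sum_range_succ]

theorem R_refl (N J : ℕ) (h : J ≤ N + 1) :
    R N J + R N (N + 1 - J) = 4 ^ N := by
  induction J with
  | zero =>
    have h1 := full_sum N
    unfold R
    rw [range_zero, sum_empty, zero_add]
    exact h1
  | succ J ih =>
    have ih := ih (by omega)
    obtain ⟨K, hK⟩ : ∃ K, N = J + K := ⟨N - J, by omega⟩
    subst hK
    rw [show J + K + 1 - J = K + 1 from by omega, R_succ] at ih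
    rw [R_succ, show J + K + 1 - (J + 1) = K from by omega]
    rw [show J + K - K = J from by omega] at ih
    rw [show J + K - J = K from by omega]
    linarith

theorem R_odd (m : ℕ) : R (2 * m + 1) (m + 1) = 4 ^ (2 * m + 1) / 2 := by
  have h := R_refl (2 * m + 1) (m + 1) (by omega)
  rw [show 2 * m + 1 + 1 - (m + 1) = m + 1 from by omega] at h
  linarith

theorem R_even (m : ℕ) : R (2 * m) m = (4 ^ (2 * m) - cb m ^ 2) / 2 := by
  have h := R_refl (2 * m) m (by omega)
  rw [show 2 * m + 1 - m = m + 1 from by omega, R_succ, show 2 * m - m = m from by omega] at h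
  linarith

theorem R_even' (m : ℕ) : R (2 * m) (m + 1) = (4 ^ (2 * m) + cb m ^ 2) / 2 := by
  rw [R_succ, R_even, show 2 * m - m = m from by omega]
  ring

/-- the telescoping sum -/
theorem Q_eq (N J : ℕ) (h : J ≤ N) (hN : 1 ≤ N) :
    ∑ j ∈ range J, cb j * cb (N - 1 - j) / ((N : ℚ) - j) = J * cb J * cb (N - J) / (2 * N) := by
  have hN' : (N : ℚ) ≠ 0 := by positivity
  induction J with
  | zero => simp
  | succ J ih =>
    rw [sum_range_succ, ih (by omega)]
    obtain ⟨K, hK⟩ : ∃ K, N = J + 1 + K := ⟨N - (J + 1), by omega⟩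
    subst hK
    rw [show J + 1 + K - 1 - J = K from by omega, show J + 1 + K - J = K + 1 from by omega,
      show J + 1 + K - (J + 1) = K from by omega, cb_succ', cb_succ']
    push_cast
    have e1 : ((J : ℚ) + 1 + K - J) = K + 1 := by ring
    rw [e1]
    have h1 : (K : ℚ) + 1 ≠ 0 := by positivity
    have h2 : (J : ℚ) + 1 ≠ 0 := by positivity
    have h3 : (J : ℚ) + 1 + K ≠ 0 := by positivity
    field_simp
    ring

theorem U_eq (N J : ℕ) (h : J ≤ N) (hN : 1 ≤ N) :
    ∑ j ∈ range J, (2 * (2 * (j : ℚ) + 1)) * cb j * cb (N - 1 - j) / ((N : ℚ) - j) =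
      2 * ((2 * N + 1) * (J * cb J * cb (N - J) / (2 * N)) - 2 * R (N - 1) J) := by
  rw [← Q_eq N J h hN]
  unfold R
  rw [mul_sum, mul_sum, ← sum_sub_distrib, mul_sum]
  refine sum_congr rfl fun j hj => ?_
  rw [mem_range] at hj
  have h1 : (N : ℚ) - j ≠ 0 := by
    have : (j : ℚ) < N := by exact_mod_cast (by omega : j < N)
    linarith
  field_simp
  ring

/-- sums supported on even indices -/
theorem sum_even_support {A : Type*} [AddCommMonoid A] (M : ℕ) (F : ℕ → A) :
    ∑ k ∈ range M, (if k % 2 = 0 then F (k / 2) else 0) = ∑ j ∈ range ((M + 1) / 2), F j := by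
  induction M with
  | zero => simp
  | succ M ih =>
    rw [sum_range_succ, ih]
    by_cases h : M % 2 = 0
    · rw [if_pos h, show (M + 1 + 1) / 2 = M / 2 + 1 from by omega, sum_range_succ,
        show (M + 1) / 2 = M / 2 from by omega]
    · rw [if_neg h, add_zero, show (M + 1 + 1) / 2 = (M + 1) / 2 from by omega]

theorem sum_odd_support {A : Type*} [AddCommMonoid A] (M : ℕ) (F : ℕ → A) :
    ∑ k ∈ range M, (if k % 2 = 0 then 0 else F (k / 2)) = ∑ j ∈ range (M / 2), F j := by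
  induction M with
  | zero => simp
  | succ M ih =>
    rw [sum_range_succ, ih]
    by_cases h : M % 2 = 0
    · rw [if_pos h, add_zero, show (M + 1) / 2 = M / 2 from by omega]
    · rw [if_neg h, show (M + 1) / 2 = M / 2 + 1 from by omega, sum_range_succ]

end Pool.Agent.D0H25.Aztec
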